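import Pool.Agent.U456.IZ.Gen
import Pool.Agent.U456.IZ.Span
import Pool.Agent.U456.IZ.Bot

/-!
# Products of tails of the integrals for zeta(2) and zeta(3)

For an integer `k ≥ 2`, `ω = exp(2πi/k)` and `x ≥ 0` let
`R_k(x) = (-1)^k / k! ∫ (∑_j ω^j log t_j)^k exp(-∑_j t_j) dt`, the integral being over the points of the
octant `(0, ∞)^k` with `max t_j ≥ x`. This number is real and `R_k(0) = ζ(k)`, the integral over the
octant.

The question is whether `R_2(x) R_3(x)` is a linear combination of `R_2(x), R_3(x), R_4(x), R_5(x)` with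
rational coefficients, for `x = 0`. It is proved that this is so for at most three rational numbers
`x ≥ 0`, even if the coefficients may be any real numbers which are algebraic over `F(e)`, for `F = ℚ` or any
simultaneously Liouville field `F` (there are uncountable ones, see the statement). The coefficients may
depend on `x`.

More precisely there are at most three rational numbers `x ≥ 0` which are exceptional: for `x > 0`
this means that `R_2(x), R_3(x), R_4(x), R_5(x)` are algebraically dependent over `F(e)`, and for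
`x = 0` that `ζ(2), ζ(3), ζ(5)` are (`ζ(4)` is `2 ζ(2)^2 / 5`).

The proof uses the formula of `Pool.Agent.R352.Q` for `ζ(k) - R_k(x)` as a polynomial in values of
E-functions, the measure of algebraic independence for these values
(`Pool.Agent.N743.SS.measM_EE`, a quantitative form of Shidlovskii's theorem), the file
`Pool/Agent/U456/IZ/Liou.lean` (a polynomial measure of algebraic independence gives algebraic
independence over every simultaneously Liouville field) and the matroid of algebraic independence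
over `F`.
-/

set_option autoImplicit false

namespace Pool.Agent.Results.MP_524521_nt.ExceptionalTails

open Filter Topology MeasureTheory Pool.Agent.Q163.LE

/-- `(∑_j ω^j log t_j)^k exp(-∑_j t_j)`, `ω = exp(2πi/k)` -/
noncomputable def integrand (k : ℕ) (t : Fin k → ℝ) : ℂ :=
  (∑ j : Fin k, Complex.exp (2 * Real.pi * Complex.I / k) ^ (j : ℕ) * (Real.log (t j) : ℂ)) ^ k *
    ((Real.exp (-∑ j, t j) : ℝ) : ℂ)

/-- the points of the octant with a coordinate at least `x` -/
def rest (k : ℕ) (x : ℝ) : Set (Fin k → ℝ) := {t | (∀ j, 0 < t j) ∧ ∃ j, x ≤ t j}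

/-- `R_k(x)`, as a complex number -/
noncomputable def tail (k : ℕ) (x : ℝ) : ℂ :=
  (-1) ^ k / k.factorial * ∫ t in rest k x, integrand k t

/-- `R_k(x)`, as a real number -/
noncomputable def R (k : ℕ) (x : ℝ) : ℝ := (tail k x).re

/-- the field generated by all real numbers `x` such that, for some base `b`,
`phrases b x N / log N` tends to `0` as `N` tends to infinity in `S` -/
noncomputable def field (S : Set ℕ) : Subfield ℝ := Subfield.closure {x : ℝ | ∃ b : ℕ, 2 ≤ b ∧
  Tendsto (fun N : ℕ => (phrases b x N : ℝ) / Real.log N) (atTop ⊓ 𝓟 S) (𝓝 0)}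

/-- the numbers `R_k(x)`, `k ∈ K`, are algebraically independent over `F(e)`, equivalently over the ring
`F[e]` -/
def IndependentOverFE (F : Subfield ℝ) (K : Finset ℕ) (x : ℝ) : Prop :=
  AlgebraicIndependent (Algebra.adjoin F ({Real.exp 1} : Set ℝ)) (fun k : K => R k x)

/-- `z` is algebraic over `F(e)`, equivalently over the ring `F[e]` -/
def AlgebraicOverFE (F : Subfield ℝ) (z : ℝ) : Prop :=
  IsAlgebraic (Algebra.adjoin F ({Real.exp 1} : Set ℝ)) z

/-- `R_2(x) R_3(x)` is a linear combination of `R_2(x), ..., R_5(x)` with coefficients algebraic over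
`F(e)` -/
def InSpan (F : Subfield ℝ) (x : ℝ) : Prop :=
  ∃ a b c d : ℝ, AlgebraicOverFE F a ∧ AlgebraicOverFE F b ∧ AlgebraicOverFE F c ∧
    AlgebraicOverFE F d ∧ R 2 x * R 3 x = a * R 2 x + b * R 3 x + c * R 4 x + d * R 5 x

/-- exceptional rational numbers `x ≥ 0` -/
def Exceptional (F : Subfield ℝ) (x : ℚ) : Prop :=
  (0 < x ∧ ¬ IndependentOverFE F {2, 3, 4, 5} x) ∨ (x = 0 ∧ ¬ IndependentOverFE F {2, 3, 5} x)

/-- **At most three rational numbers `x ≥ 0` are exceptional**, and `R_2(x) R_3(x)` is in the span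
only for exceptional `x`. -/
theorem result :
    -- examples of simultaneously Liouville fields, `⊥` is the field of rational numbers
    SimLiouville (⊥ : Subfield ℝ) ∧
    (∀ (T : ℕ → ℝ) (hT : Tendsto T atTop atTop), SimLiouville (ApField T hT)) ∧
    (∀ S : Set ℕ, S.Infinite → SimLiouville (field S)) ∧
    -- the numbers `R_k(x)`
    (∀ k : ℕ, 2 ≤ k → (∀ x : ℝ, 0 ≤ x → tail k x = (R k x : ℂ)) ∧
      R k 0 = ∑' n : ℕ, 1 / ((n : ℝ) + 1) ^ k) ∧
    ∀ F : Subfield ℝ, SimLiouville F →
      -- (1) the exceptional `x`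
      {x : ℚ | 0 ≤ x ∧ Exceptional F x}.encard ≤ 3 ∧
      -- (2) the span
      (∀ x : ℚ, 0 ≤ x → InSpan F x → Exceptional F x) ∧
      {x : ℚ | 0 ≤ x ∧ InSpan F x}.encard ≤ 3 := by
  have hR : ∀ k : ℕ, 2 ≤ k → ∀ x : ℚ, 0 ≤ x → R k (x : ℝ) = Pool.Agent.U456.IZ.Tl k x := by
    intro k hk x hx
    rcases hx.eq_or_lt with h0 | h0
    · rw [← h0, Rat.cast_zero, Pool.Agent.U456.IZ.Tl, if_pos rfl]
      exact Pool.Agent.U456.IZ.Rg_zero hk
    · rw [Pool.Agent.U456.IZ.Tl, if_neg h0.ne']
      exact Pool.Agent.U456.IZ.Rg_pos hk (by exact_mod_cast h0)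
  refine ⟨Pool.Agent.U456.IZ.sim_bot, sim_apField, sim_lz,
    fun k hk => ⟨fun x hx => Pool.Agent.U456.IZ.tailk_real hk hx,
    Pool.Agent.U456.IZ.Rg_zero hk⟩, fun F hF => ?_⟩
  have hind : ∀ K : Finset ℕ, (∀ k ∈ K, 2 ≤ k) → ∀ x : ℚ, 0 ≤ x →
      (IndependentOverFE F K x ↔ AlgebraicIndependent F (Pool.Agent.U456.IZ.tup K x)) := by
    intro K hK x hx
    rw [IndependentOverFE, ← Pool.Agent.U456.IZ.tup_iff hF K x]
    have h3 : (fun k : K => R k (x : ℝ)) = fun k : K => Pool.Agent.U456.IZ.Tl k x := by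
      funext k
      exact hR k (hK k k.2) x hx
    rw [h3]
  have h1 : {x : ℚ | 0 ≤ x ∧ Exceptional F x}.encard ≤ ((2 + 1 : ℕ) : ℕ∞) := by
    refine Pool.Agent.U456.IZ.three_exceptions hF (Exceptional F) (fun x hx h => ?_) (fun h => ?_)
    · rcases h with h | h
      · exact fun hc => h.2 ((hind _ (by decide) x hx.le).2 hc)
      · exact absurd h.1 hx.ne'
    · rcases h with h | h
      · exact absurd h.1 (lt_irrefl _)
      · exact fun hc => h.2 ((hind _ (by decide) 0 le_rfl).2 hc)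
  have h2 : ∀ x : ℚ, 0 ≤ x → InSpan F x → Exceptional F x := by
    rintro x hx ⟨a, b, c, d, ha, hb, hc, hd, h⟩
    rw [hR 2 le_rfl x hx, hR 3 (by norm_num) x hx, hR 4 (by norm_num) x hx,
      hR 5 (by norm_num) x hx] at h
    rcases hx.eq_or_lt with h0 | h0
    · subst h0
      exact Or.inr ⟨rfl, fun hcon => Pool.Agent.U456.IZ.dep_zero
        (Pool.Agent.U456.IZ.mem_clE.2 ha) (Pool.Agent.U456.IZ.mem_clE.2 hb)
        (Pool.Agent.U456.IZ.mem_clE.2 hc) (Pool.Agent.U456.IZ.mem_clE.2 hd) h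
        ((hind _ (by decide) 0 le_rfl).1 hcon)⟩
    · exact Or.inl ⟨h0, fun hcon => Pool.Agent.U456.IZ.dep_pos x
        (Pool.Agent.U456.IZ.mem_clE.2 ha) (Pool.Agent.U456.IZ.mem_clE.2 hb)
        (Pool.Agent.U456.IZ.mem_clE.2 hc) (Pool.Agent.U456.IZ.mem_clE.2 hd) h
        ((hind _ (by decide) x hx).1 hcon)⟩
  have h3 : ((2 + 1 : ℕ) : ℕ∞) = 3 := by norm_num
  rw [h3] at h1
  have h4 : {x : ℚ | 0 ≤ x ∧ InSpan F x} ⊆ {x : ℚ | 0 ≤ x ∧ Exceptional F x} :=
    fun x hx => ⟨hx.1, h2 x hx.1 hx.2⟩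
  exact ⟨h1, h2, (Set.encard_le_encard h4).trans h1⟩

end Pool.Agent.Results.MP_524521_nt.ExceptionalTails
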