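import Pool.Agent.U829.JX.Zeta

set_option autoImplicit false

/-!
# The numbers `ζ(2) ζ(3) - a ζ(2) - b ζ(3) - c ζ(4) - d ζ(5)`: digits in algebraic bases and continued fractions

The question: can such a number be `0` (`a, b, c, d` rational)? For fixed real `b`, `d` (for instance rational) the
numbers belonging to different pairs `(a, c)` of rational numbers are jointly irregular (`JointlyIrregular`). For
`d = 0` this holds for rational `a`, `b`, `c` as soon as the pairs `(c, 5 a + 2 b c)` are different.

An expansion of a real number `x` is a sequence of digits of `x` in one of finitely many algebraic bases (integers or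
not; any digits `|a_i| ≤ B`), or the sequence of its partial quotients. Its height is `n log β` or the logarithm of
the denominator of the convergent. Any two expansions of two different numbers of the family are apart: they cannot
both be cut into few pieces (a single term or `U V V ... V V'`) and cannot both be announced by automata with few
errors, at no scale; for every `θ < 1` there is `c > 0` such that at every large height `Z` at most one of the
numbers has an expansion which up to the height `Z` can be cut into `c log Z` pieces of size `Z^θ` or announced with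
`c log Z` errors by an automaton with `S` states, `S log (M + 3) ≤ Z^θ`. If one of the numbers is algebraic then all
expansions of every other one are irregular by themselves. The digits of a rational number in an integer base are one
piece, its partial quotients end; a real quadratic number has periodic partial quotients.

Proof. A piece gives an integer polynomial of bounded degree with a very small value at the number (a norm from
`ℚ(β)` for digits, the determinant of two pairs of convergents for partial quotients; `Pool.Agent.U829.AB`,
`Pool.Agent.U829.CF`). Two of them, for two numbers of the family, contradict the joint measure of the starting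
library (`Pool.Agent.R473.JC`, from the transcendence measure of `π`).
-/

namespace Pool.Agent.Results.MP_524521_nt.ExpansionsOfRelations

open Pool.Agent.U829.AB Pool.Agent.U829.JX

/-- digits exist -/
theorem digits (F : Finset ℝ) (hF : ∀ β ∈ F, 1 < β ∧ IsAlgebraic ℤ β) (B T : ℕ) (β : ℝ) (hβ : β ∈ F)
    (hB : β < B + 1) (x : ℝ) (hx : |x| < β ^ T) :
    ∃ (a : ℕ → ℤ) (h : ℕ → ℝ), DigitCode {β} B T x a h ∧ Code F B T x a h := by
  obtain ⟨a, h, hc⟩ := exists_code {β} B T β (Finset.mem_singleton_self β) (hF β hβ).1 hB x hx
  refine ⟨a, h, hc, Or.inl ?_⟩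
  obtain ⟨γ, hγ, h1⟩ := hc
  rw [Finset.mem_singleton] at hγ
  subst hγ
  exact ⟨_, hβ, h1⟩

/-- `ζ(s) = ∑ 1 / k^s` (for `s ≥ 2`; the term `k = 0` is `0`) -/
noncomputable def zeta (s : ℕ) : ℝ := ∑' k : ℕ, 1 / (k : ℝ) ^ s

theorem zeta_two : zeta 2 = Real.pi ^ 2 / 6 := hasSum_zeta_two.tsum_eq

theorem zeta_four : zeta 4 = Real.pi ^ 4 / 90 := hasSum_zeta_four.tsum_eq

/-- `ζ(2) ζ(3) - (a ζ(2) + b ζ(3) + c ζ(4) + d ζ(5))` -/
noncomputable def N (a b c d : ℝ) : ℝ :=
  zeta 2 * zeta 3 - (a * zeta 2 + b * zeta 3 + c * zeta 4 + d * zeta 5)

/-- **Theorem.** Let `F` be a finite set of real algebraic numbers `β > 1` and `B`, `T` natural numbers.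

(1) For all real (for instance: rational) `b`, `d` and all rational `a i`, `c i` with different pairs `(a i, c i)` the
numbers `N (a i) b (c i) d` are jointly irregular.

(2) For all rational `a i`, `b i`, `c i` with different pairs `(c i, 5 a i + 2 b i c i)` the numbers
`N (a i) (b i) (c i) 0` are jointly irregular.

(3) Digits exist: if `β ∈ F`, `β < B + 1` and `|x| < β^T` then `x` has such a sequence of digits in base `β`. -/
theorem result (F : Finset ℝ) (hF : ∀ β ∈ F, 1 < β ∧ IsAlgebraic ℤ β) (B T : ℕ) :
    (∀ (k : ℕ) (b d : ℝ) (a c : Fin k → ℚ), (∀ i j, i ≠ j → a i ≠ a j ∨ c i ≠ c j) →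
      JointlyIrregular F B T fun i => N (a i) b (c i) d) ∧
    (∀ (k : ℕ) (a b c : Fin k → ℚ),
      (∀ i j, i ≠ j → c i ≠ c j ∨ 5 * a i + 2 * b i * c i ≠ 5 * a j + 2 * b j * c j) →
      JointlyIrregular F B T fun i => N (a i) (b i) (c i) 0) ∧
    (∀ β ∈ F, β < B + 1 → ∀ x : ℝ, |x| < β ^ T → ∃ (a : ℕ → ℤ) (h : ℕ → ℝ), DigitCode {β} B T x a h ∧ Code F B T x a h) := by
  refine ⟨fun k b d a c h => ?_, fun k a b c h => ?_, fun β hβ hB x hx => digits F hF B T β hβ hB x hx⟩
  · refine jointlyIrregular F hF B T _ fun i j hij => ?_
    have h1 := joint_tail Real.pi Pool.Agent.TH456.TM.measT_pi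
      (zeta 2 * zeta 3 - b * zeta 3 - d * zeta 5) (a i / 6) (c i / 90) (a j / 6) (c j / 90) (by
        rcases h i j hij with h | h
        · left
          intro h0
          apply h
          linarith
        · right
          intro h0
          apply h
          linarith)
    have e : ∀ i, zeta 2 * zeta 3 - b * zeta 3 - d * zeta 5 - ((a i / 6 : ℚ) : ℝ) * Real.pi ^ 2 -
        ((c i / 90 : ℚ) : ℝ) * Real.pi ^ 4 = N (a i) b (c i) d := by
      intro i
      have h2 := zeta_two
      have h4 := zeta_four
      unfold N
      push_cast
      rw [h4]
      linear_combination (a i : ℝ) * h2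
    rw [e, e] at h1
    exact h1
  · refine jointlyIrregular F hF B T _ fun i j hij => ?_
    have h1 := joint_triple Real.pi Pool.Agent.TH456.TM.measT_pi (zeta 3) (1 / 6)
      (a i / 6) (b i) (c i / 90) (a j / 6) (b j) (c j / 90) (by norm_num) (by
        by_cases hc : c i = c j
        · right
          intro h0
          rcases h i j hij with h | h
          · exact h hc
          · apply h
            linear_combination (-180) * h0 + 2 * (b i + b j) * hc
        · left
          intro h0
          apply hc
          linarith)
    have e : ∀ i, (((1 / 6 : ℚ) : ℝ) * Real.pi ^ 2 - (b i : ℝ)) * zeta 3 - ((a i / 6 : ℚ) : ℝ) * Real.pi ^ 2 -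
        ((c i / 90 : ℚ) : ℝ) * Real.pi ^ 4 = N (a i) (b i) (c i) 0 := by
      intro i
      have h2 := zeta_two
      have h4 := zeta_four
      unfold N
      push_cast
      rw [h2, h4]
      ring
    rw [e, e] at h1
    exact h1

end Pool.Agent.Results.MP_524521_nt.ExpansionsOfRelations
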