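import Mathlib
import Pool.Agent.U831.ZP.Fin

/-!
# The multiples of the forms `(n ζ(2)ζ(3) - b ζ(3) - c ζ(4) - e ζ(5)) / ζ(2)` modulo one, off a plane

The equation `ζ(2)ζ(3) = a ζ(2) + b ζ(3) + c ζ(4) + d ζ(5)` of the problem says, after division by
`ζ(2)` and multiplication by a common denominator, that
`θ = (n ζ(2)ζ(3) - b ζ(3) - c ζ(4) - e ζ(5)) / ζ(2)` is an integer for some integers `n ≠ 0, b, c, e`;
so Q1 says that all these numbers `θ` with `n ≠ 0` are irrational, i.e. that the multiples `m θ` are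
equidistributed modulo one. We prove, with a power saving and uniformly in `ζ(5)` (any real numbers
`z_1, …, z_r` are allowed in its place): for every large `X` there is ONE rational space `W` of
dimension at most `r + 1` (a plane in the four-dimensional space of the `(n, b, c, e)`) such that at
all scales `N` between `X` and `X ^ M` the multiples `m θ + γ`, `m < N`, are equidistributed for all
`(n, b, c, e)` of height at most `N ^ κ` outside `W`. Without the `z_i` the space `W` is a line which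
is not contained in the planes `b = 0` and meets `n = c = 0` only in `0`.

The proof: bad distribution at the scale `N` gives a fraction with small denominator near `θ`
(`Pool.Agent.U831.HY.near`), hence a near relation between `ζ(2)ζ(3), ζ(2), ζ(3), ζ(4), z_1, …, z_r`;
the near relations at one scale span a space of dimension at most `r + 1` (starting hand-in
`NearRelations` of this problem). The numbers `z_i` are reduced modulo `ζ(2)`, which makes everything
uniform in them.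
-/

set_option autoImplicit false

namespace Pool.Agent.Results.MP_524521_nt.FormsOffAPlane

open Finset

/-- `ζ(s) = ∑_{k ≥ 1} k^(-s)` -/
noncomputable def zeta (s : ℕ) : ℝ := ∑' k : ℕ, 1 / ((k : ℝ) + 1) ^ s

/-- the number of `m < N` with the fractional part of `m θ + γ` in `[u, v)` -/
noncomputable def count (θ γ u v : ℝ) (N : ℕ) : ℕ :=
  ((range N).filter fun m : ℕ => u ≤ Int.fract (m * θ + γ) ∧ Int.fract (m * θ + γ) < v).card

/-- the sequence `m θ + γ`, `m < N`, is equidistributed with an error at most `N ^ (1 - κ)` -/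
def Good (κ : ℝ) (N : ℕ) (θ : ℝ) : Prop :=
  ∀ γ u v : ℝ, 0 ≤ u → u ≤ v → v ≤ 1 → |(count θ γ u v N : ℝ) - (v - u) * N| ≤ (N : ℝ) ^ (1 - κ)

/-- **Forms off a plane.** -/
theorem result : ∀ M : ℝ, 1 ≤ M →
    (∀ r : ℕ, ∃ κ : ℝ, 0 < κ ∧ ∃ X₀ : ℝ, ∀ z : Fin r → ℝ, ∀ X : ℝ, X₀ ≤ X →
      ∃ W : Submodule ℚ ((Fin 3 → ℚ) × (Fin r → ℚ)), Module.finrank ℚ W ≤ r + 1 ∧
        ∀ N : ℕ, X ≤ N → (N : ℝ) ≤ X ^ M → ∀ (n b c : ℤ) (e : Fin r → ℤ),
          |(n : ℝ)| ≤ (N : ℝ) ^ κ → |(b : ℝ)| ≤ (N : ℝ) ^ κ → |(c : ℝ)| ≤ (N : ℝ) ^ κ →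
          (∀ i, |(e i : ℝ)| ≤ (N : ℝ) ^ κ) →
          ((![(n : ℚ), (b : ℚ), (c : ℚ)], fun i => (e i : ℚ)) : (Fin 3 → ℚ) × (Fin r → ℚ)) ∉ W →
            Good κ N ((n * (zeta 2 * zeta 3) - b * zeta 3 - c * zeta 4 - ∑ i, e i * z i) / zeta 2)) ∧
    ∃ κ : ℝ, 0 < κ ∧ ∃ X₀ : ℝ, ∀ X : ℝ, X₀ ≤ X →
      ∃ n₀ b₀ c₀ : ℤ, b₀ ≠ 0 ∧ (n₀ ≠ 0 ∨ c₀ ≠ 0) ∧
        ∀ N : ℕ, X ≤ N → (N : ℝ) ≤ X ^ M → ∀ n b c : ℤ,
          |(n : ℝ)| ≤ (N : ℝ) ^ κ → |(b : ℝ)| ≤ (N : ℝ) ^ κ → |(c : ℝ)| ≤ (N : ℝ) ^ κ →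
          (n₀ * b ≠ b₀ * n ∨ n₀ * c ≠ c₀ * n ∨ b₀ * c ≠ c₀ * b) →
            Good κ N ((n * (zeta 2 * zeta 3) - b * zeta 3 - c * zeta 4) / zeta 2) := by
  have hgood : ∀ (κ : ℝ) (N : ℕ) (θ : ℝ), 0 < (N : ℝ) →
      Pool.Agent.U831.JE.DiscLe θ N ((N : ℝ) ^ (-κ)) → Good κ N θ := by
    intro κ N θ hN h γ u v hu huv hv
    have h1 := h γ u v hu huv hv
    have h2 : (N : ℝ) ^ (-κ) * N = (N : ℝ) ^ (1 - κ) := by
      rw [sub_eq_add_neg, add_comm, Real.rpow_add hN, Real.rpow_one]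
    rw [h2] at h1
    exact h1
  intro M hM
  constructor
  · intro r
    obtain ⟨κ, hκ, X₀, h⟩ := Pool.Agent.U831.ZP.general r M hM
    refine ⟨κ, hκ, max X₀ 1, fun z X hX => ⟨_, h z X ((le_max_left _ _).trans hX), ?_⟩⟩
    intro N h1 h2 n b c e hn hb hc he hW
    have hN : 0 < (N : ℝ) := by
      have := (le_max_right X₀ 1).trans hX
      linarith
    refine hgood κ N _ hN ?_
    by_contra hcon
    apply hW
    refine Submodule.subset_span ⟨(![n, b, c], e), ⟨N, h1, h2, ?_, he, ?_⟩, ?_⟩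
    · intro i
      fin_cases i
      · exact hn
      · exact hb
      · exact hc
    · exact hcon
    · refine Prod.ext ?_ rfl
      funext i
      fin_cases i <;> rfl
  · obtain ⟨κ, hκ, X₀, h⟩ := Pool.Agent.U831.ZP.line M hM
    refine ⟨κ, hκ, max X₀ 1, fun X hX => ?_⟩
    obtain ⟨u, h1, h2, h3⟩ := h (fun i => i.elim0) X ((le_max_left _ _).trans hX)
    refine ⟨u 0, u 1, u 2, h1, h2, fun N h4 h5 n b c hn hb hc hne => ?_⟩
    have hN : 0 < (N : ℝ) := by
      have := (le_max_right X₀ 1).trans hX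
      linarith
    refine hgood κ N _ hN ?_
    by_contra hcon
    have h6 := h3 (![n, b, c], fun i => i.elim0) ⟨N, h4, h5, fun i => by
      fin_cases i
      · exact hn
      · exact hb
      · exact hc, fun i => i.elim0, fun h7 => hcon (by
        have h8 : Pool.Agent.U831.ZP.form (fun i : Fin 0 => i.elim0) (![n, b, c], fun i => i.elim0) =
            (n * (zeta 2 * zeta 3) - b * zeta 3 - c * zeta 4) / zeta 2 := by
          unfold Pool.Agent.U831.ZP.form
          simp only [Matrix.cons_val_zero, Matrix.cons_val_one, Matrix.cons_val, Finset.univ_eq_empty,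
            Finset.sum_empty, sub_zero]
          rfl
        rw [← h8]
        exact h7)⟩
    rcases hne with h | h | h
    · exact h (h6 0 1)
    · exact h (h6 0 2)
    · exact h (h6 1 2)

end Pool.Agent.Results.MP_524521_nt.FormsOffAPlane
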