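import Pool.Agent.U831.MU.Scale
import Pool.Agent.V11210.ZZ.Meas

/-!
# `ζ(2)ζ(3) - a ζ(2) - b ζ(3) - c ζ(4) - d ζ(5)` for the quadruples off a line

Q1 says that `ζ(2)ζ(3) - a ζ(2) - b ζ(3) - c ζ(4) - d ζ(5)` is not zero for all rational quadruples
`(a, b, c, d)`; the expectation is that this number is transcendental for all of them.

A number `x` is good at the scale `N` if for ALL nonconstant integer polynomials `f` of degree at most
`D` with coefficients at most `N ^ c` the multiples `n f(x)`, `n < N`, are equidistributed modulo one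
with discrepancy `N ^ (-c)`. Algebraic numbers of degree at most `D` are good at no large scale.

**Theorem.** Let `F` be a finite set of quadruples, `D` a natural number and `M ≥ 2`. There are `c > 0`
and `X₀` such that for each `X ≥ X₀` there is a LINE in `ℚ⁴` such that for all rational quadruples in `F`
off this line the number above is good at ALL scales `N` between `X` and `X ^ M`; the line contains all
rational quadruples for which the number is algebraic. For quadruples of real algebraic numbers the same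
holds with a plane.

More generally let `z_1, …, z_r` be any real numbers (for instance odd zeta values), and consider the
values of the vectors `(q, a, b, c, e_1, …, e_r)` of real algebraic numbers. The exceptional vectors of
a finite set lie in a space `W` such that `π` is transcendental over the field generated by all values
of `W`; it has dimension at most `r + 2`, and the rational spaces in it have dimension at most `r + 1`.

Proof. The values at the exceptional vectors generate a field over which `π` is transcendental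
(`Pool.Agent.U831.MU.field_engine`: numbers with very good algebraic approximations of bounded degree
form a field which is algebraically closed in `ℝ`, and `π` has a transcendence measure). Let `L` be the
algebraic closure in `ℝ` of this field and `W` the space of the vectors with values in `L`. If `q`, `b` and
the `e_i` are zero then the value is a polynomial in `ζ(2) = π² / 6`, so `a = c = 0`; this gives `r + 2`. If
the rational vectors in `W` have dimension `r + 2` then `ζ(2)ζ(3) - a ζ(2) - c ζ(4)` and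
`ζ(3) - a' ζ(2) - c' ζ(4)` are in `L` for some rational numbers; by elimination of `ζ(3)` one obtains
`c' = 0` and `ζ(3) ∈ ℚ + ℚ ζ(2)`, a contradiction to the linear independence of `1, ζ(2), ζ(3)`.
-/

set_option autoImplicit false

namespace Pool.Agent.Results.MP_524521_nt.QuadruplesOffALine

open Polynomial

/-- `ζ(s) = ∑_{k ≥ 1} k^(-s)` -/
noncomputable def zeta (s : ℕ) : ℝ := ∑' k : ℕ, 1 / ((k : ℝ) + 1) ^ s

/-- The number of `n < N` with the fractional part of `n α + γ` in `[u, v)`. -/
noncomputable def count (α γ u v : ℝ) (N : ℕ) : ℕ :=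
  ((Finset.range N).filter fun n : ℕ =>
    u ≤ Int.fract (n * α + γ) ∧ Int.fract (n * α + γ) < v).card

/-- The sequence `n α + γ` (`n < N`) modulo one has discrepancy at most `Δ`, for every shift `γ`. -/
def DiscrepancyLe (α : ℝ) (N : ℕ) (Δ : ℝ) : Prop :=
  ∀ γ u v : ℝ, 0 ≤ u → u ≤ v → v ≤ 1 → |(count α γ u v N : ℝ) - (v - u) * N| ≤ Δ * N

/-- `x` is good at the scale `N`: the multiples of all the numbers `f(x)`, where `f` is a
nonconstant integer polynomial of degree at most `D` with coefficients at most `N ^ c`, are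
equidistributed with discrepancy at most `N ^ (-c)`. -/
def Good (D : ℕ) (c : ℝ) (N : ℕ) (x : ℝ) : Prop :=
  ∀ f : ℤ[X], 1 ≤ f.natDegree → f.natDegree ≤ D → (∀ k, |(f.coeff k : ℝ)| ≤ (N : ℝ) ^ c) →
    DiscrepancyLe (aeval x f) N ((N : ℝ) ^ (-c))

/-- the vectors `((q, a, b, c), (e_1, …, e_r))` over the field `k` -/
def Vec (k : Type) (r : ℕ) : Type := (Fin 4 → k) × (Fin r → k)

instance (k : Type) [Field k] (r : ℕ) : AddCommGroup (Vec k r) :=
  inferInstanceAs (AddCommGroup ((Fin 4 → k) × (Fin r → k)))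

instance (k : Type) [Field k] (r : ℕ) : Module k (Vec k r) :=
  inferInstanceAs (Module k ((Fin 4 → k) × (Fin r → k)))

/-- `q ζ(2)ζ(3) - a ζ(2) - b ζ(3) - c ζ(4) - e_1 z_1 - … - e_r z_r` for `v = ((q, a, b, c), e)` -/
noncomputable def value {k : Type} [Field k] [Algebra k ℝ] {r : ℕ} (z : Fin r → ℝ) (v : Vec k r) : ℝ :=
  v.1 0 • (zeta 2 * zeta 3) - v.1 1 • zeta 2 - v.1 2 • zeta 3 - v.1 3 • zeta 4 - ∑ i, v.2 i • z i

/-- the field of the real algebraic numbers -/
def Alg : Type := algebraicClosure ℚ ℝ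

noncomputable instance : Field Alg := inferInstanceAs (Field (algebraicClosure ℚ ℝ))

noncomputable instance : Algebra Alg ℝ := inferInstanceAs (Algebra (algebraicClosure ℚ ℝ) ℝ)

instance : CharZero Alg := (algebraMap Alg ℝ).charZero

/-- a rational vector as a vector of real algebraic numbers -/
noncomputable def toAlg {r : ℕ} (v : Vec ℚ r) : Vec Alg r :=
  (fun i => (v.1 i : Alg), fun i => (v.2 i : Alg))

/-- `ζ(2)ζ(3) - a ζ(2) - b ζ(3) - c ζ(4) - d ζ(5)` for the quadruple `w = (a, b, c, d)` of rational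
numbers -/
noncomputable def difference (w : Fin 4 → ℚ) : ℝ :=
  zeta 2 * zeta 3 - w 0 * zeta 2 - w 1 * zeta 3 - w 2 * zeta 4 - w 3 * zeta 5

/-- `x` is good at all scales between `X` and `X ^ M` -/
def GoodOn (D : ℕ) (c X M x : ℝ) : Prop :=
  ∀ N : ℕ, X ≤ N → (N : ℝ) ≤ X ^ M → Good D c N x

/-- `w` is on the line `p + ℚ u` (which is a point if `u = 0`) -/
def OnLine (p u w : Fin 4 → ℚ) : Prop := ∃ s : ℚ, w = p + s • u

/-- the field generated by the values of `W` -/
noncomputable def valueField {r : ℕ} (z : Fin r → ℝ) (W : Submodule Alg (Vec Alg r)) : Subfield ℝ :=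
  Subfield.closure (value z '' (W : Set (Vec Alg r)))

/-- `π` is transcendental over the field generated by the values of `W` -/
def PiTranscendental {r : ℕ} (z : Fin r → ℝ) (W : Submodule Alg (Vec Alg r)) : Prop :=
  Transcendental (valueField z W) Real.pi

/-- the dimension of `W` over the field of the real algebraic numbers is at most `n` -/
def DimLe {r : ℕ} (W : Submodule Alg (Vec Alg r)) (n : ℕ) : Prop := Module.finrank Alg W ≤ n

/-- the dimension of the rational spaces in `W` is at most `n` -/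
def RationalDimLe {r : ℕ} (W : Submodule Alg (Vec Alg r)) (n : ℕ) : Prop :=
  ∀ V : Submodule ℚ (Vec ℚ r), (∀ v ∈ V, toAlg v ∈ W) → Module.finrank ℚ V ≤ n

/-- all vectors with algebraic value are in `W` -/
def ContainsAlgebraic {r : ℕ} (z : Fin r → ℝ) (W : Submodule Alg (Vec Alg r)) : Prop :=
  ∀ v : Vec Alg r, IsAlgebraic ℚ (value z v) → v ∈ W

/-- The properties of the space `W` of the exceptional vectors. -/
def IsExceptional {r : ℕ} (z : Fin r → ℝ) (W : Submodule Alg (Vec Alg r)) : Prop :=
  PiTranscendental z W ∧ DimLe W (r + 2) ∧ RationalDimLe W (r + 1) ∧ ContainsAlgebraic z W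

/-- rational quadruples: the exceptional ones are on a line -/
def QuadrupleStatement : Prop :=
  ∀ (F : Finset (Fin 4 → ℚ)) (D : ℕ) (M : ℝ), 2 ≤ M →
    ∃ c : ℝ, 0 < c ∧ ∃ X₀ : ℝ, ∀ X : ℝ, X₀ ≤ X → ∃ p u : Fin 4 → ℚ,
      (∀ w : Fin 4 → ℚ, IsAlgebraic ℚ (difference w) → OnLine p u w) ∧
      ∀ w ∈ F, ¬ OnLine p u w → GoodOn D c X M (difference w)

/-- vectors of real algebraic numbers, arbitrary real numbers `z_i`: the exceptional vectors are in a
space -/
def SpaceStatement : Prop :=
  ∀ (r : ℕ) (z : Fin r → ℝ) (F : Finset (Vec Alg r)) (D : ℕ) (M : ℝ), 2 ≤ M →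
    ∃ c : ℝ, 0 < c ∧ ∃ X₀ : ℝ, ∀ X : ℝ, X₀ ≤ X → ∃ W : Submodule Alg (Vec Alg r),
      IsExceptional z W ∧ ∀ v ∈ F, v ∉ W → GoodOn D c X M (value z v)

/-! ### The space of the vectors with values in a field -/

section lemmas

variable {k : Type} [Field k] {r : ℕ}

instance : Module.Finite k (Vec k r) :=
  inferInstanceAs (Module.Finite k ((Fin 4 → k) × (Fin r → k)))

@[simp] lemma add_fst (v w : Vec k r) (i : Fin 4) : (v + w).1 i = v.1 i + w.1 i := rfl

@[simp] lemma add_snd (v w : Vec k r) (i : Fin r) : (v + w).2 i = v.2 i + w.2 i := rfl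

@[simp] lemma smul_fst (a : k) (v : Vec k r) (i : Fin 4) : (a • v).1 i = a * v.1 i := rfl

@[simp] lemma smul_snd (a : k) (v : Vec k r) (i : Fin r) : (a • v).2 i = a * v.2 i := rfl

@[simp] lemma zero_fst (i : Fin 4) : (0 : Vec k r).1 i = 0 := rfl

@[simp] lemma zero_snd (i : Fin r) : (0 : Vec k r).2 i = 0 := rfl

end lemmas

lemma value_add {k : Type} [Field k] [Algebra k ℝ] {r : ℕ} (z : Fin r → ℝ) (v w : Vec k r) :
    value z (v + w) = value z v + value z w := by
  simp only [value, add_fst, add_snd, add_smul, Finset.sum_add_distrib]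
  ring

lemma value_smul {k : Type} [Field k] [Algebra k ℝ] {r : ℕ} (z : Fin r → ℝ) (a : k) (v : Vec k r) :
    value z (a • v) = a • value z v := by
  simp only [value, smul_fst, smul_snd, mul_smul, smul_sub, Finset.smul_sum]

/-- the vectors with values in `L` -/
def space (k : Type) [Field k] [Algebra k ℝ] {r : ℕ} (z : Fin r → ℝ) (L : Subfield ℝ)
    (hk : ∀ a : k, algebraMap k ℝ a ∈ L) : Submodule k (Vec k r) where
  carrier := {v | value z v ∈ L}
  add_mem' := by
    intro v w hv hw
    show value z (v + w) ∈ L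
    rw [value_add]
    exact L.add_mem hv hw
  zero_mem' := by
    show value z (0 : Vec k r) ∈ L
    have h : value z (0 : Vec k r) = 0 := by simp [value]
    rw [h]
    exact L.zero_mem
  smul_mem' := by
    intro a v hv
    show value z (a • v) ∈ L
    rw [value_smul, Algebra.smul_def]
    exact L.mul_mem (hk a) hv

lemma rat_mem (L : Subfield ℝ) (q : ℚ) : (q : ℝ) ∈ L := SubfieldClass.ratCast_mem L q

lemma zeta_eq : zeta = Pool.Agent.V11210.ZZ.zeta := rfl

lemma zeta_two : zeta 2 = Real.pi ^ 2 / 6 := Pool.Agent.V11210.ZZ.zeta_two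

lemma zeta_four : zeta 4 = 2 / 5 * zeta 2 ^ 2 := Pool.Agent.V11210.ZZ.zeta_four

/-- a polynomial of degree at most three over `L` which vanishes at `x` -/
lemma coeffs {L : Subfield ℝ} {x : ℝ} (hx : Transcendental L x) {a b c d : ℝ} (ha : a ∈ L)
    (hb : b ∈ L) (hc : c ∈ L) (hd : d ∈ L) (h : a + b * x + c * x ^ 2 + d * x ^ 3 = 0) :
    a = 0 ∧ b = 0 ∧ c = 0 ∧ d = 0 := by
  have h1 : (C (⟨a, ha⟩ : L) + C (⟨b, hb⟩ : L) * X + C (⟨c, hc⟩ : L) * X ^ 2 +
      C (⟨d, hd⟩ : L) * X ^ 3 : L[X]) = 0 := by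
    by_contra hne
    apply hx
    refine ⟨_, hne, ?_⟩
    simp only [map_add, map_mul, aeval_C, aeval_X, map_pow]
    exact h
  have h2 := fun n => congrArg (fun p : L[X] => p.coeff n) h1
  have e0 := h2 0
  have e1 := h2 1
  have e2 := h2 2
  have e3 := h2 3
  simp [coeff_X, coeff_C, coeff_X_pow] at e0 e1 e2 e3
  refine ⟨?_, ?_, ?_, ?_⟩
  · exact congrArg (Subtype.val) e0
  · exact congrArg (Subtype.val) e1
  · exact congrArg (Subtype.val) e2
  · exact congrArg (Subtype.val) e3

/-- the coordinates `q`, `b` and `e` -/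
def proj (k : Type) [Field k] (r : ℕ) : Vec k r →ₗ[k] (k × k) × (Fin r → k) where
  toFun v := ((v.1 0, v.1 2), v.2)
  map_add' _ _ := rfl
  map_smul' _ _ := rfl

lemma proj_inj (k : Type) [Field k] [Algebra k ℝ] {r : ℕ} (z : Fin r → ℝ) (L : Subfield ℝ)
    (hk : ∀ a : k, algebraMap k ℝ a ∈ L) (hX : Transcendental L (zeta 2)) :
    Function.Injective ((proj k r).comp (space k z L hk).subtype) := by
  rw [injective_iff_map_eq_zero]
  rintro ⟨v, hv⟩ h
  have h0 : v.1 0 = 0 := congrArg (fun p : (k × k) × (Fin r → k) => p.1.1) h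
  have h2 : v.1 2 = 0 := congrArg (fun p : (k × k) × (Fin r → k) => p.1.2) h
  have he : v.2 = 0 := congrArg (fun p : (k × k) × (Fin r → k) => p.2) h
  have hv' : value z v ∈ L := hv
  have h3 : value z v = -(algebraMap k ℝ (v.1 1)) * zeta 2 -
      algebraMap k ℝ (v.1 3) * (2 / 5) * zeta 2 ^ 2 := by
    simp only [value, h0, h2, he, zero_smul, Pi.zero_apply, Finset.sum_const_zero]
    rw [Algebra.smul_def, Algebra.smul_def, zeta_four]
    ring
  have h25 : (2 / 5 : ℝ) ∈ L := by
    have h5 : ((2 / 5 : ℚ) : ℝ) ∈ L := by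
      exact rat_mem L _
    push_cast at h5
    exact h5
  obtain ⟨-, h4, h5, -⟩ := coeffs hX hv' (hk (v.1 1)) (L.mul_mem (hk (v.1 3)) h25) L.zero_mem
    (by rw [h3]; ring)
  have h6 : v.1 1 = 0 := (map_eq_zero (algebraMap k ℝ)).1 h4
  have h7 : v.1 3 = 0 := by
    have : algebraMap k ℝ (v.1 3) = 0 := by linarith
    exact (map_eq_zero (algebraMap k ℝ)).1 this
  refine Subtype.ext (Prod.ext ?_ he)
  funext i
  fin_cases i
  · exact h0
  · exact h6
  · exact h2
  · exact h7

lemma finrank_space (k : Type) [Field k] [Algebra k ℝ] {r : ℕ} (z : Fin r → ℝ) (L : Subfield ℝ)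
    (hk : ∀ a : k, algebraMap k ℝ a ∈ L) (hX : Transcendental L (zeta 2)) :
    Module.finrank k (space k z L hk) ≤ r + 2 := by
  have h := LinearMap.finrank_le_finrank_of_injective (proj_inj k z L hk hX)
  refine h.trans (le_of_eq ?_)
  rw [Module.finrank_prod, Module.finrank_prod, Module.finrank_self, Module.finrank_fin_fun]
  ring

/-- `1`, `ζ(2)`, `ζ(3)` are linearly independent -/
lemma zeta_three_ne (a b : ℚ) : zeta 3 ≠ a + b * zeta 2 := by
  intro h
  obtain ⟨c, hc, k₀, hm⟩ := Pool.Agent.V11210.ZZ.meas1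
  set d : ℤ := (a.den : ℤ) * b.den with hd
  have hd0 : d ≠ 0 := by
    rw [hd]
    have h1 := a.den_nz
    have h2 := b.den_nz
    positivity
  have hda : (d : ℝ) * a = ((a.num * b.den : ℤ) : ℝ) := by
    rw [hd]
    have : (a : ℝ) = a.num / a.den := by
      exact_mod_cast (Rat.num_div_den a).symm
    rw [this]
    have h1 : (a.den : ℝ) ≠ 0 := by exact_mod_cast a.den_nz
    push_cast
    field_simp
  have hdb : (d : ℝ) * b = ((b.num * a.den : ℤ) : ℝ) := by
    rw [hd]
    have : (b : ℝ) = b.num / b.den := by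
      exact_mod_cast (Rat.num_div_den b).symm
    rw [this]
    have h1 : (b.den : ℝ) ≠ 0 := by exact_mod_cast b.den_nz
    push_cast
    field_simp
  have h1 := hm k₀ le_rfl (a.num * b.den) (b.num * a.den) (-d)
    (max 1 (max |((b.num * a.den : ℤ) : ℝ)| |((-d : ℤ) : ℝ)|)) (le_max_left _ _) (neg_ne_zero.2 hd0)
    ((le_max_left _ _).trans (le_max_right _ _)) ((le_max_right _ _).trans (le_max_right _ _))
  have h2 : ((a.num * b.den : ℤ) : ℝ) + ((b.num * a.den : ℤ) : ℝ) * Pool.Agent.V11210.ZZ.zeta 2 +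
      ((-d : ℤ) : ℝ) * Pool.Agent.V11210.ZZ.zeta 3 = 0 := by
    rw [← zeta_eq, ← hda, ← hdb, h]
    push_cast
    ring
  rw [h2, abs_zero, mul_zero] at h1
  linarith

lemma finrank_rat {r : ℕ} (z : Fin r → ℝ) (L : Subfield ℝ)
    (hk : ∀ a : ℚ, algebraMap ℚ ℝ a ∈ L) (hX : Transcendental L (zeta 2)) :
    Module.finrank ℚ (space ℚ z L hk) ≤ r + 1 := by
  by_contra hcon
  push Not at hcon
  have h1 := finrank_space ℚ z L hk hX
  have h2 : Module.finrank ℚ (space ℚ z L hk) = Module.finrank ℚ ((ℚ × ℚ) × (Fin r → ℚ)) := by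
    rw [Module.finrank_prod, Module.finrank_prod, Module.finrank_self, Module.finrank_fin_fun]
    omega
  have h3 := (LinearMap.injective_iff_surjective_of_finrank_eq_finrank h2).1
    (proj_inj ℚ z L hk hX)
  obtain ⟨⟨v, hv⟩, hv1⟩ := h3 ((1, 0), 0)
  obtain ⟨⟨w, hw⟩, hw1⟩ := h3 ((0, 1), 0)
  have v0 : v.1 0 = 1 := congrArg (fun p : (ℚ × ℚ) × (Fin r → ℚ) => p.1.1) hv1
  have v2 : v.1 2 = 0 := congrArg (fun p : (ℚ × ℚ) × (Fin r → ℚ) => p.1.2) hv1
  have ve : v.2 = 0 := congrArg (fun p : (ℚ × ℚ) × (Fin r → ℚ) => p.2) hv1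
  have w0 : w.1 0 = 0 := congrArg (fun p : (ℚ × ℚ) × (Fin r → ℚ) => p.1.1) hw1
  have w2 : w.1 2 = 1 := congrArg (fun p : (ℚ × ℚ) × (Fin r → ℚ) => p.1.2) hw1
  have we : w.2 = 0 := congrArg (fun p : (ℚ × ℚ) × (Fin r → ℚ) => p.2) hw1
  have hy : value z v ∈ L := hv
  have hy' : value z w ∈ L := hw
  have e1 : value z v = zeta 2 * zeta 3 - v.1 1 * zeta 2 - v.1 3 * (2 / 5) * zeta 2 ^ 2 := by
    simp only [value, v0, v2, ve, zero_smul, one_smul, Pi.zero_apply, Finset.sum_const_zero]
    rw [Rat.smul_def, Rat.smul_def, zeta_four]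
    ring
  have e2 : value z w = -(w.1 1 * zeta 2) - zeta 3 - w.1 3 * (2 / 5) * zeta 2 ^ 2 := by
    simp only [value, w0, w2, we, zero_smul, one_smul, Pi.zero_apply, Finset.sum_const_zero]
    rw [Rat.smul_def, Rat.smul_def, zeta_four]
    ring
  have hrat : ∀ q : ℚ, (q : ℝ) ∈ L := rat_mem L
  have h25 : (2 / 5 : ℝ) ∈ L := by
    have h5 := hrat (2 / 5)
    push_cast at h5
    exact h5
  obtain ⟨g0, g1, g2, g3⟩ := coeffs hX (a := value z v) (b := v.1 1 + value z w)
    (c := v.1 3 * (2 / 5) + w.1 1) (d := w.1 3 * (2 / 5)) hy (L.add_mem (hrat _) hy')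
    (L.add_mem (L.mul_mem (hrat _) h25) (hrat _)) (L.mul_mem (hrat _) h25)
    (by rw [e1, e2]; ring)
  have g4 : (w.1 3 : ℝ) = 0 := by linarith
  apply zeta_three_ne (v.1 1) (-w.1 1)
  rw [e2, g4] at g1
  push_cast
  linarith

/-! ### The exceptional vectors -/

lemma cast_smul (q : ℚ) (x : ℝ) : (q : Alg) • x = q • x := by
  rw [Algebra.smul_def, map_ratCast, Rat.smul_def]

lemma value_toAlg {r : ℕ} (z : Fin r → ℝ) (v : Vec ℚ r) : value z (toAlg v) = value z v := by
  simp only [value, toAlg, cast_smul]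

/-- the numbers which are algebraic over a field -/
noncomputable def closureIn (K : Subfield ℝ) : Subfield ℝ := (algebraicClosure K ℝ).toSubfield

lemma transc_closure (K : Subfield ℝ) (x : ℝ) (hx : Transcendental K x) :
    Transcendental (closureIn K) x := by
  intro h
  apply hx
  have h1 : IsAlgebraic (algebraicClosure K ℝ) x := h
  exact h1.restrictScalars K

lemma mem_closureIn {K : Subfield ℝ} {x : ℝ} (h : x ∈ K) : x ∈ closureIn K :=
  (algebraicClosure K ℝ).algebraMap_mem ⟨x, h⟩

lemma alg_mem_closureIn (K : Subfield ℝ) {x : ℝ} (h : IsAlgebraic ℚ x) : x ∈ closureIn K := by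
  show x ∈ algebraicClosure K ℝ
  rw [mem_algebraicClosure_iff]
  exact h.tower_top K

lemma transc_zeta_two {L : Subfield ℝ} (h : Transcendental L Real.pi) :
    Transcendental L (zeta 2) := by
  intro h1
  apply h
  rw [zeta_two] at h1
  have h6 : IsAlgebraic L (6 : ℝ) := by
    exact_mod_cast isAlgebraic_natCast (R := L) (A := ℝ) 6
  have h2 : IsAlgebraic L (Real.pi ^ 2) := by
    have := h1.mul h6
    have e : Real.pi ^ 2 / 6 * 6 = Real.pi ^ 2 := by ring
    rwa [e] at this
  exact IsAlgebraic.of_pow (by norm_num) h2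

/-- the general theorem -/
theorem main (r : ℕ) (z : Fin r → ℝ) (F : Finset (Vec Alg r)) (D : ℕ) (M : ℝ) (hM : 2 ≤ M) :
    ∃ c : ℝ, 0 < c ∧ ∃ X₀ : ℝ, ∀ X : ℝ, X₀ ≤ X → ∃ W : Submodule Alg (Vec Alg r),
      Transcendental (Subfield.closure (value z '' (W : Set (Vec Alg r)))) Real.pi ∧
      Module.finrank Alg W ≤ r + 2 ∧
      (∀ V : Submodule ℚ (Vec ℚ r), (∀ v ∈ V, toAlg v ∈ W) → Module.finrank ℚ V ≤ r + 1) ∧
      (∀ v : Vec Alg r, IsAlgebraic ℚ (value z v) → v ∈ W) ∧
      ∀ v ∈ F, v ∉ W → ∀ N : ℕ, X ≤ N → (N : ℝ) ≤ X ^ M → Good D c N (value z v) := by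
  classical
  obtain ⟨c, hc, X₀, h⟩ := Pool.Agent.U831.MU.field_engine F (fun v : Vec Alg r => value z v) D M hM
  refine ⟨c, hc, X₀, fun X hX => ?_⟩
  obtain ⟨S, hSF, h1, h2, h3⟩ := h X hX
  set K := Subfield.closure ((fun v : Vec Alg r => value z v) '' (S : Set (Vec Alg r))) with hK
  have hpi : Transcendental (closureIn K) Real.pi :=
    transc_closure K _ (h1 _ Pool.Agent.TH456.TM.measT_pi)
  have hz2 := transc_zeta_two hpi
  have hkA : ∀ a : Alg, algebraMap Alg ℝ a ∈ closureIn K := fun a =>
    alg_mem_closureIn K (mem_algebraicClosure_iff.1 a.2 : IsAlgebraic ℚ (a.1 : ℝ))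
  have hkQ : ∀ a : ℚ, algebraMap ℚ ℝ a ∈ closureIn K := fun a => rat_mem (closureIn K) a
  refine ⟨space Alg z (closureIn K) hkA, ?_, finrank_space Alg z _ hkA hz2, fun V hV => ?_,
    fun v hv => alg_mem_closureIn K hv, fun v hv hvW => ?_⟩
  · intro hcon
    apply hpi
    have hle : Subfield.closure (value z '' (space Alg z (closureIn K) hkA : Set (Vec Alg r))) ≤
        closureIn K := by
      rw [Subfield.closure_le]
      rintro _ ⟨v, hv, rfl⟩
      exact hv
    obtain ⟨p, hp0, hp⟩ := hcon
    refine ⟨p.map (Subfield.inclusion hle), ?_, ?_⟩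
    · rwa [Ne, Polynomial.map_eq_zero]
    · rw [aeval_def, eval₂_map]
      exact hp
  · have hle : V ≤ space ℚ z (closureIn K) hkQ := by
      intro v hv
      have h4 : value z (toAlg v) ∈ closureIn K := hV v hv
      rw [value_toAlg] at h4
      exact h4
    exact (Submodule.finrank_mono hle).trans (finrank_rat z _ hkQ hz2)
  · refine h3 v hv fun hvS => hvW ?_
    show value z v ∈ closureIn K
    exact mem_closureIn (Subfield.subset_closure ⟨v, hvS, rfl⟩)

/-- the vector of a quadruple -/
def vec (w : Fin 4 → ℚ) : Vec ℚ 1 := (![1, w 0, w 1, w 2], fun _ => w 3)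

lemma value_vec (w : Fin 4 → ℚ) : value (fun _ : Fin 1 => zeta 5) (vec w) = difference w := by
  simp [value, vec, difference, Rat.smul_def]

/-- quadruples -/
theorem quadruples (F : Finset (Fin 4 → ℚ)) (D : ℕ) (M : ℝ) (hM : 2 ≤ M) :
    ∃ c : ℝ, 0 < c ∧ ∃ X₀ : ℝ, ∀ X : ℝ, X₀ ≤ X → ∃ p u : Fin 4 → ℚ,
      (∀ w : Fin 4 → ℚ, IsAlgebraic ℚ (difference w) → ∃ s : ℚ, w = p + s • u) ∧
      ∀ w ∈ F, (¬ ∃ s : ℚ, w = p + s • u) → ∀ N : ℕ, X ≤ N → (N : ℝ) ≤ X ^ M →
        Good D c N (difference w) := by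
  classical
  obtain ⟨c, hc, X₀, h⟩ := main 1 (fun _ => zeta 5) (F.image fun w => toAlg (vec w)) D M hM
  refine ⟨c, hc, X₀, fun X hX => ?_⟩
  obtain ⟨W, -, -, h1, h2, h3⟩ := h X hX
  -- the exceptional quadruples are on a line
  obtain ⟨p, u, hpu⟩ : ∃ p u : Fin 4 → ℚ, ∀ w : Fin 4 → ℚ, toAlg (vec w) ∈ W →
      ∃ s : ℚ, w = p + s • u := by
    by_cases hne : ∃ p : Fin 4 → ℚ, toAlg (vec p) ∈ W
    · obtain ⟨p, hp⟩ := hne
      by_cases hne2 : ∃ p' : Fin 4 → ℚ, p' ≠ p ∧ toAlg (vec p') ∈ W
      · obtain ⟨p', hp'p, hp'⟩ := hne2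
        refine ⟨p, p' - p, fun w hw => ?_⟩
        set V : Submodule ℚ (Vec ℚ 1) := Submodule.span ℚ (Set.range ![vec p, vec p', vec w]) with hV
        have hVW : ∀ v ∈ V, toAlg v ∈ W := by
          intro v hv
          induction hv using Submodule.span_induction with
          | mem v hv =>
            obtain ⟨i, rfl⟩ := hv
            fin_cases i
            · exact hp
            · exact hp'
            · exact hw
          | zero =>
            have : toAlg (0 : Vec ℚ 1) = 0 := by
              refine Prod.ext ?_ ?_ <;> funext i <;> simp [toAlg]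
            rw [this]
            exact W.zero_mem
          | add v v' _ _ hv hv' =>
            have : toAlg (v + v') = toAlg v + toAlg v' := by
              refine Prod.ext ?_ ?_ <;> funext i <;> simp [toAlg]
            rw [this]
            exact W.add_mem hv hv'
          | smul a v _ hv =>
            have : toAlg (a • v) = (a : Alg) • toAlg v := by
              refine Prod.ext ?_ ?_ <;> funext i <;> simp [toAlg]
            rw [this]
            exact W.smul_mem _ hv
        have hdim := h1 V hVW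
        have hli : ¬ LinearIndependent ℚ ![vec p, vec p', vec w] := by
          intro hli
          have h5 := finrank_span_eq_card hli
          rw [← hV, Fintype.card_fin] at h5
          omega
        rw [Fintype.not_linearIndependent_iff] at hli
        obtain ⟨g, hg, i, hi⟩ := hli
        rw [Fin.sum_univ_three] at hg
        simp only [Matrix.cons_val_zero, Matrix.cons_val_one, Matrix.cons_val_two, Matrix.head_cons,
          Matrix.tail_cons] at hg
        have k0 : g 0 + g 1 + g 2 = 0 := by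
          have := congrArg (fun v : Vec ℚ 1 => v.1 0) hg
          simpa [vec] using this
        have kc : ∀ j : Fin 4, g 0 * p j + g 1 * p' j + g 2 * w j = 0 := by
          intro j
          fin_cases j
          · have := congrArg (fun v : Vec ℚ 1 => v.1 1) hg
            simpa [vec] using this
          · have := congrArg (fun v : Vec ℚ 1 => v.1 2) hg
            simpa [vec] using this
          · have := congrArg (fun v : Vec ℚ 1 => v.1 3) hg
            simpa [vec] using this
          · have := congrArg (fun v : Vec ℚ 1 => v.2 0) hg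
            simpa [vec] using this
        have hg2 : g 2 ≠ 0 := by
          intro hg2
          have hg1 : g 1 ≠ 0 := by
            intro hg1
            have hg0 : g 0 = 0 := by rw [hg1, hg2] at k0; linarith
            apply hi
            fin_cases i
            · exact hg0
            · exact hg1
            · exact hg2
          apply hp'p
          funext j
          have h6 := kc j
          have h7 : g 0 = - g 1 := by rw [hg2] at k0; linarith
          rw [hg2, h7] at h6
          have h8 : g 1 * (p' j - p j) = 0 := by linarith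
          rcases mul_eq_zero.1 h8 with h9 | h9
          · exact absurd h9 hg1
          · linarith
        refine ⟨-(g 1 / g 2), ?_⟩
        funext j
        have h6 := kc j
        have h7 : g 0 = - g 1 - g 2 := by linarith
        rw [h7] at h6
        simp only [Pi.add_apply, Pi.smul_apply, Pi.sub_apply, smul_eq_mul]
        field_simp
        linarith
      · push Not at hne2
        refine ⟨p, 0, fun w hw => ⟨0, ?_⟩⟩
        by_contra hwp
        exact hne2 w (fun h => hwp (by rw [h]; simp)) hw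
    · exact ⟨0, 0, fun w hw => absurd ⟨w, hw⟩ hne⟩
  refine ⟨p, u, fun w hw => hpu w (h2 _ ?_), fun w hw hwp N hN1 hN2 => ?_⟩
  · rw [value_toAlg, value_vec]
    exact hw
  · have h4 := h3 (toAlg (vec w)) (Finset.mem_image_of_mem _ hw) (fun h5 => hwp (hpu w h5)) N hN1 hN2
    rwa [value_toAlg, value_vec] at h4

/-- **`ζ(2)ζ(3) - a ζ(2) - b ζ(3) - c ζ(4) - d ζ(5)` for the quadruples off a line.** -/
theorem result : QuadrupleStatement ∧ SpaceStatement := by
  refine ⟨quadruples, fun r z F D M hM => ?_⟩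
  obtain ⟨c, hc, X₀, h⟩ := main r z F D M hM
  refine ⟨c, hc, X₀, fun X hX => ?_⟩
  obtain ⟨W, h1, h2, h3, h4, h5⟩ := h X hX
  exact ⟨W, ⟨h1, h2, h3, h4⟩, h5⟩

end Pool.Agent.Results.MP_524521_nt.QuadruplesOffALine
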